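import Pool.Agent.Helper57.ZM.Main

/-!
# MP_6dbd76_nt: accumulation points of the fractional parts of multiples of powers of 3/2

Definition of the statement: `IsAcc ξ y` means that `y` is an accumulation point (the limit of a
subsequence, a cluster point along `atTop`) of the sequence of the fractional parts of `ξ (3/2)^n`.
-/

set_option autoImplicit false

namespace Pool.Agent.Results.MP_6dbd76_nt.MultiplesDichotomy

open Filter Topology

/-- `y` is an accumulation point of the fractional parts of `ξ (3/2)^n` -/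
def IsAcc (ξ y : ℝ) : Prop := MapClusterPt y atTop (fun n : ℕ => Int.fract (ξ * (3 / 2 : ℝ) ^ n))

/-- For `ξ ≠ 0` and an integer `m ≥ 2`: the accumulation points for `ξ` lie in no closed half of
`[0,1]`, or there are two accumulation points for `m ξ` which are more than `1/2` apart. -/
theorem result (ξ : ℝ) (hξ : ξ ≠ 0) (m : ℕ) (hm : 2 ≤ m) :
    ((∃ y, IsAcc ξ y ∧ y < 1 / 2) ∧ (∃ y, IsAcc ξ y ∧ 1 / 2 < y)) ∨
      ∃ y z, IsAcc (m * ξ) y ∧ IsAcc (m * ξ) z ∧ 1 / 2 < z - y := by
  have h := Pool.Agent.Helper57.ZM.main ξ hξ (m : ℤ) (by exact_mod_cast hm)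
  push_cast at h
  exact h

end Pool.Agent.Results.MP_6dbd76_nt.MultiplesDichotomy
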