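import Pool.Agent.Helper57.ZM.Eleven

/-!
# MP_6dbd76_nt: the range of the fractional parts of two multiples of powers of 3/2

Definitions of the statement: `IsAcc ξ y` means that `y` is an accumulation point (the limit of a
subsequence, a cluster point along `atTop`) of the sequence of the fractional parts of `ξ (3/2)^n`.
`Far m d` is the lower bound for a distance `d`: `d > 1/2` if `m ≤ 7`, and `d ≥ 4/9`,
`d ≥ m / (2m+3)` if `m ≥ 8`.
-/

set_option autoImplicit false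

namespace Pool.Agent.Results.MP_6dbd76_nt.RangeOfMultiples

open Filter Topology

/-- `y` is an accumulation point of the fractional parts of `ξ (3/2)^n` -/
def IsAcc (ξ y : ℝ) : Prop := MapClusterPt y atTop (fun n : ℕ => Int.fract (ξ * (3 / 2 : ℝ) ^ n))

/-- the lower bound for the distance -/
def Far (m : ℕ) (d : ℝ) : Prop :=
  (m ≤ 7 → 1 / 2 < d) ∧ (8 ≤ m → 4 / 9 ≤ d ∧ (m : ℝ) / (2 * m + 3) ≤ d)

/-- For `ξ ≠ 0` and `m ≥ 2`: one of the sets of accumulation points for `ξ` and for `m ξ` has two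
points which are far apart. -/
theorem result (ξ : ℝ) (hξ : ξ ≠ 0) (m : ℕ) (hm : 2 ≤ m) :
    (∃ y z, IsAcc ξ y ∧ IsAcc ξ z ∧ Far m (z - y)) ∨
      ∃ y z, IsAcc (m * ξ) y ∧ IsAcc (m * ξ) z ∧ Far m (z - y) := by
  rcases le_or_gt m 7 with h7 | h7
  · have h := Pool.Agent.Helper57.ZM.range_main ξ hξ (m : ℤ) (by exact_mod_cast hm)
      (by exact_mod_cast h7)
    push_cast at h
    have hf : ∀ d : ℝ, 1 / 2 < d → Far m d := fun d hd => ⟨fun _ => hd, fun h8 => by omega⟩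
    rcases h with ⟨y, z, h1, h2, h3⟩ | ⟨y, z, h1, h2, h3⟩
    · exact Or.inl ⟨y, z, h1, h2, hf _ h3⟩
    · exact Or.inr ⟨y, z, h1, h2, hf _ h3⟩
  · have h := Pool.Agent.Helper57.ZM.uniform ξ hξ (m : ℤ) (by exact_mod_cast hm)
    push_cast at h
    have hf : ∀ d : ℝ, max (4 / 9) ((m : ℝ) / (2 * m + 3)) ≤ d → Far m d := fun d hd =>
      ⟨fun h8 => by omega, fun _ => ⟨(le_max_left _ _).trans hd, (le_max_right _ _).trans hd⟩⟩
    rcases h with ⟨y, z, h1, h2, h3⟩ | ⟨y, z, h1, h2, h3⟩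
    · exact Or.inl ⟨y, z, h1, h2, hf _ h3⟩
    · exact Or.inr ⟨y, z, h1, h2, hf _ h3⟩

end Pool.Agent.Results.MP_6dbd76_nt.RangeOfMultiples
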