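import Mathlib
import Pool.Agent.Helper3.TH.Windows

/-!
# MP_6dbd76_nt: accumulation points of the fractional parts of the powers of 3/2

Definitions of the statement: `a n` is the fractional part of `(3/2)^n`, `IsAcc y` means that `y` is an
accumulation point of the sequence `a` (the limit of a subsequence).
-/

set_option autoImplicit false

namespace Pool.Agent.Results.MP_6dbd76_nt.TranslatedPair

open Filter Topology

/-- the fractional part of `(3/2)^n` -/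
noncomputable def a (n : ℕ) : ℝ := Int.fract ((3 / 2 : ℝ) ^ n)

/-- `y` is an accumulation point of the sequence `a` -/
def IsAcc (y : ℝ) : Prop := ∃ φ : ℕ → ℕ, StrictMono φ ∧ Tendsto (fun k => a (φ k)) atTop (𝓝 y)

theorem coe_a (n : ℕ) : ((a n : ℝ) : UnitAddCircle) = Pool.Agent.Helper3.TH.pw n := by
  unfold a Pool.Agent.Helper3.TH.pw
  rw [← sub_eq_zero, ← AddCircle.coe_sub, AddCircle.coe_eq_zero_iff]
  refine ⟨-⌊(3 / 2 : ℝ) ^ n⌋, ?_⟩
  rw [Int.fract]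
  simp

theorem windows (J : Set ℝ) (hJ : IsClosed J) (hsub : J ⊆ Set.Icc 0 1)
    (hd : ∀ x ∈ J, ∀ y ∈ J, y - x ≠ 1 / 3 ∧ y - x ≠ 2 / 3) (c : ℝ) (hc : 0 < c) :
    ∃ M0 : ℕ, ∀ M : ℕ, M0 ≤ M → ∃ n : ℕ, M ≤ n ∧ (n : ℝ) ≤ (1 + c) * M ∧ a n ∉ J := by
  have hcomp : IsCompact J := isCompact_Icc.of_isClosed_subset hJ hsub
  have hcont : Continuous (fun x : ℝ => (x : UnitAddCircle)) := AddCircle.continuous_mk' 1
  have hcl : IsClosed ((fun x : ℝ => (x : UnitAddCircle)) '' J) := (hcomp.image hcont).isClosed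
  have hdis : ∀ x ∈ (fun x : ℝ => (x : UnitAddCircle)) '' J,
      x + ((1 / 3 : ℝ) : UnitAddCircle) ∉ (fun x : ℝ => (x : UnitAddCircle)) '' J := by
    rintro _ ⟨x, hx, rfl⟩ ⟨y, hy, hxy⟩
    simp only at hxy
    rw [← AddCircle.coe_add, ← sub_eq_zero, ← AddCircle.coe_sub, AddCircle.coe_eq_zero_iff] at hxy
    obtain ⟨k, hk⟩ := hxy
    simp only [zsmul_eq_mul, mul_one] at hk
    have hx' := hsub hx
    have hy' := hsub hy
    rw [Set.mem_Icc] at hx' hy'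
    have h1 : (-2 : ℝ) < k := by linarith [hx'.1, hx'.2, hy'.1, hy'.2]
    have h2 : (k : ℝ) < 1 := by linarith [hx'.1, hx'.2, hy'.1, hy'.2]
    have h3 : -2 < k := by exact_mod_cast h1
    have h4 : k < 1 := by exact_mod_cast h2
    have h5 : k = 0 ∨ k = -1 := by omega
    rcases h5 with rfl | rfl
    · apply (hd x hx y hy).1
      push_cast at hk
      linarith
    · apply (hd y hy x hx).2
      push_cast at hk
      linarith
  obtain ⟨M0, hM0⟩ := Pool.Agent.Helper3.TH.windows _ hcl hdis c hc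
  refine ⟨M0, fun M hM => ?_⟩
  obtain ⟨n, h1, h2, h3⟩ := hM0 M hM
  refine ⟨n, h1, h2, fun h4 => h3 ?_⟩
  rw [← coe_a]
  exact ⟨a n, h4, rfl⟩

theorem a_mem (n : ℕ) : a n ∈ Set.Icc (0 : ℝ) 1 := ⟨Int.fract_nonneg _, (Int.fract_lt_one _).le⟩

theorem pair : ∃ y z : ℝ, IsAcc y ∧ IsAcc z ∧ (z - y = 1 / 3 ∨ z - y = 2 / 3) := by
  set A : Set ℝ := {y | MapClusterPt y atTop a} with hA
  have hAcl : IsClosed A := isClosed_setOfPred_clusterPt
  have hAacc : ∀ y ∈ A, IsAcc y := by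
    intro y hy
    exact MapClusterPt.tendsto_subseq hy
  obtain ⟨y0, -, hy0⟩ := isCompact_Icc.exists_mapClusterPt (f := atTop) (u := a)
    (s := Set.Icc (0 : ℝ) 1) (Filter.tendsto_principal.2 (Eventually.of_forall a_mem))
  have hAne : A.Nonempty := ⟨y0, hy0⟩
  by_contra hcon
  push Not at hcon
  have hno : ∀ y ∈ A, ∀ z ∈ A, z - y ≠ 1 / 3 ∧ z - y ≠ 2 / 3 := fun y hy z hz =>
    hcon y z (hAacc y hy) (hAacc z hz)
  set P : Set (ℝ × ℝ) := {q | q.1 ∈ Set.Icc (0 : ℝ) 1 ∧ q.2 ∈ Set.Icc (0 : ℝ) 1 ∧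
    (q.2 - q.1 = 1 / 3 ∨ q.2 - q.1 = 2 / 3)} with hP
  have hPcomp : IsCompact P := by
    refine (isCompact_Icc.prod isCompact_Icc).of_isClosed_subset
      (s := (Set.Icc (0 : ℝ) 1) ×ˢ (Set.Icc (0 : ℝ) 1)) ?_ ?_
    · have h1 : IsClosed {q : ℝ × ℝ | q.1 ∈ Set.Icc (0 : ℝ) 1} := isClosed_Icc.preimage continuous_fst
      have h2 : IsClosed {q : ℝ × ℝ | q.2 ∈ Set.Icc (0 : ℝ) 1} := isClosed_Icc.preimage continuous_snd
      have h3 : IsClosed {q : ℝ × ℝ | q.2 - q.1 = 1 / 3} :=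
        isClosed_eq (by fun_prop) continuous_const
      have h4 : IsClosed {q : ℝ × ℝ | q.2 - q.1 = 2 / 3} :=
        isClosed_eq (by fun_prop) continuous_const
      exact h1.inter (h2.inter (h3.union h4))
    · intro q hq
      exact ⟨hq.1, hq.2.1⟩
  have hPne : P.Nonempty := ⟨(0, 1 / 3), by
    refine ⟨⟨le_rfl, zero_le_one⟩, ⟨by norm_num, by norm_num⟩, Or.inl (by norm_num)⟩⟩
  obtain ⟨q0, hq0, hmin⟩ := hPcomp.exists_isMinOn hPne
    (f := fun q : ℝ × ℝ => Metric.infDist q.1 A + Metric.infDist q.2 A)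
    (((Metric.continuous_infDist_pt A).comp continuous_fst).add
      ((Metric.continuous_infDist_pt A).comp continuous_snd)).continuousOn
  set δ : ℝ := Metric.infDist q0.1 A + Metric.infDist q0.2 A with hδ
  have hδ0 : 0 < δ := by
    have h1 : 0 ≤ Metric.infDist q0.1 A := Metric.infDist_nonneg
    have h2 : 0 ≤ Metric.infDist q0.2 A := Metric.infDist_nonneg
    by_contra h3
    have h4 : Metric.infDist q0.1 A = 0 := by linarith
    have h5 : Metric.infDist q0.2 A = 0 := by linarith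
    have h6 : q0.1 ∈ A := (hAcl.mem_iff_infDist_zero hAne).2 h4
    have h7 : q0.2 ∈ A := (hAcl.mem_iff_infDist_zero hAne).2 h5
    rcases hq0.2.2 with h8 | h8
    · exact (hno _ h6 _ h7).1 h8
    · exact (hno _ h6 _ h7).2 h8
  set J : Set ℝ := {x | x ∈ Set.Icc (0 : ℝ) 1 ∧ Metric.infDist x A ≤ δ / 3} with hJ
  have hJcl : IsClosed J := by
    have h1 : IsClosed {x : ℝ | Metric.infDist x A ≤ δ / 3} :=
      isClosed_le (Metric.continuous_infDist_pt A) continuous_const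
    exact isClosed_Icc.inter h1
  have hJd : ∀ x ∈ J, ∀ y ∈ J, y - x ≠ 1 / 3 ∧ y - x ≠ 2 / 3 := by
    intro x hx y hy
    have key : ¬ (y - x = 1 / 3 ∨ y - x = 2 / 3) := by
      intro h
      have h1 := isMinOn_iff.1 hmin (x, y) ⟨hx.1, hy.1, h⟩
      simp only at h1
      have h2 := hx.2
      have h3 := hy.2
      rw [← hδ] at h1
      linarith
    exact ⟨fun h => key (Or.inl h), fun h => key (Or.inr h)⟩
  obtain ⟨M0, hM0⟩ := windows J hJcl (fun x hx => hx.1) hJd 1 one_pos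
  have hfreq : ∃ᶠ n in atTop, a n ∈ {x | x ∈ Set.Icc (0 : ℝ) 1 ∧ δ / 3 ≤ Metric.infDist x A} := by
    rw [Filter.frequently_atTop]
    intro N
    obtain ⟨n, h1, -, h2⟩ := hM0 (max M0 N) (le_max_left _ _)
    refine ⟨n, (le_max_right _ _).trans h1, a_mem n, ?_⟩
    by_contra h3
    push Not at h3
    exact h2 ⟨a_mem n, h3.le⟩
  have hcomp2 : IsCompact {x | x ∈ Set.Icc (0 : ℝ) 1 ∧ δ / 3 ≤ Metric.infDist x A} := by
    refine isCompact_Icc.of_isClosed_subset (s := Set.Icc (0 : ℝ) 1) ?_ (fun x hx => hx.1)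
    have h1 : IsClosed {x : ℝ | δ / 3 ≤ Metric.infDist x A} :=
      isClosed_le continuous_const (Metric.continuous_infDist_pt A)
    exact isClosed_Icc.inter h1
  obtain ⟨x, hx, hxc⟩ := hcomp2.exists_mapClusterPt_of_frequently hfreq
  have h1 : Metric.infDist x A = 0 := (hAcl.mem_iff_infDist_zero hAne).1 hxc
  have h2 := hx.2
  rw [h1] at h2
  linarith

/-- The result. -/
theorem result :
    (∃ y z : ℝ, IsAcc y ∧ IsAcc z ∧ (z - y = 1 / 3 ∨ z - y = 2 / 3)) ∧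
    ∀ J : Set ℝ, IsClosed J → J ⊆ Set.Icc 0 1 →
      (∀ x ∈ J, ∀ y ∈ J, y - x ≠ 1 / 3 ∧ y - x ≠ 2 / 3) → ∀ c : ℝ, 0 < c →
      ∃ M0 : ℕ, ∀ M : ℕ, M0 ≤ M → ∃ n : ℕ, M ≤ n ∧ (n : ℝ) ≤ (1 + c) * M ∧ a n ∉ J :=
  ⟨pair, windows⟩

end Pool.Agent.Results.MP_6dbd76_nt.TranslatedPair
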